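import Pool.Agent.U695.IG.Defs

/-!
# Characters of the isomorphism game algebra are isomorphisms of graphs
-/

set_option autoImplicit false

namespace Pool.Agent.U695.IG

/-- A family of complex numbers satisfying the relations of the isomorphism game algebra yields an
isomorphism of graphs. -/
theorem iso_of_complex {V W : Type} [Fintype V] [Fintype W] {G : SimpleGraph V}
    {H : SimpleGraph W} {q : V → W → ℂ} (hq : IsIsoFamily G H q) : Nonempty (G ≃g H) := by
  have h01 : ∀ g h, q g h = 0 ∨ q g h = 1 := fun g h => by
    have := hq.mul_self g h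
    rcases eq_or_ne (q g h) 0 with h0 | h0
    · exact Or.inl h0
    · exact Or.inr (mul_right_cancel₀ h0 (by rw [this, one_mul]))
  have hrow : ∀ g, ∃ h, q g h = 1 := by
    intro g
    by_contra hn
    push Not at hn
    have h0 : ∀ h, q g h = 0 := fun h => (h01 g h).resolve_right (hn h)
    have := hq.row g
    simp [h0] at this
  have hcol : ∀ h, ∃ g, q g h = 1 := by
    intro h
    by_contra hn
    push Not at hn
    have h0 : ∀ g, q g h = 0 := fun g => (h01 g h).resolve_right (hn g)
    have := hq.col h
    simp [h0] at this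
  have hrel : ∀ g g' h h', q g h = 1 → q g' h' = 1 → SameRel G H g g' h h' := by
    intro g g' h h' h1 h2
    by_contra hn
    have := hq.orth g g' h h' hn
    rw [h1, h2, one_mul] at this
    exact one_ne_zero this
  choose f hf using hrow
  have hbij : Function.Bijective f := by
    constructor
    · intro g g' h
      exact (hrel g g' _ _ (hf g) (hf g')).1.2 h
    · intro h
      obtain ⟨g, hg⟩ := hcol h
      exact ⟨g, (hrel g g _ _ (hf g) hg).1.1 rfl⟩
  exact ⟨⟨Equiv.ofBijective f hbij, fun {a b} => (hrel a b _ _ (hf a) (hf b)).2.symm⟩⟩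

theorem isIsoFamily_map {V W : Type} [Fintype V] [Fintype W] {G : SimpleGraph V}
    {H : SimpleGraph W} {A B : Type} [CStarAlgebra A] [CStarAlgebra B] {p : V → W → A}
    (hp : IsIsoFamily G H p) (φ : A →⋆ₐ[ℂ] B) : IsIsoFamily G H (fun g h => φ (p g h)) where
  mul_self g h := by rw [← map_mul, hp.mul_self]
  star_self g h := by rw [← map_star, hp.star_self]
  row g := by rw [← map_sum, hp.row, map_one]
  col h := by rw [← map_sum, hp.col, map_one]
  orth g g' h h' hn := by rw [← map_mul, hp.orth g g' h h' hn, map_zero]

/-- An isomorphism of graphs gives a family in any unital C*-algebra. -/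
theorem isIsoFamily_of_iso {V W : Type} [Fintype V] [Fintype W] {G : SimpleGraph V}
    {H : SimpleGraph W} (e : G ≃g H) (B : Type) [CStarAlgebra B] :
    ∃ q : V → W → B, IsIsoFamily G H q := by
  classical
  refine ⟨fun g h => if e g = h then 1 else 0, ?_, ?_, ?_, ?_, ?_⟩
  · intro g h
    split_ifs <;> simp
  · intro g h
    split_ifs <;> simp
  · intro g
    simp
  · intro h
    have : ∀ g, (e g = h) = (g = e.symm h) := fun g => by
      apply propext
      constructor
      · rintro rfl; simp
      · rintro rfl; simp
    simp only [this]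
    simp
  · intro g g' h h' hn
    by_cases h1 : e g = h
    · by_cases h2 : e g' = h'
      · exfalso
        apply hn
        subst h1 h2
        exact ⟨⟨fun h => by rw [h], fun h => e.injective h⟩, e.map_adj_iff.symm⟩
      · simp [h2]
    · simp [h1]

/-- The trivial character of the full group C*-algebra. -/
theorem exists_trivial_character {Γ : Type} [Group Γ] {C : Type} [CStarAlgebra C]
    {u : Γ →* unitary C} (hu : IsFullGroupCStar u) : Nonempty (C →⋆ₐ[ℂ] ℂ) :=
  ⟨(hu ℂ 1).choose⟩

/-- Unital *-homomorphisms from the isomorphism game algebra into a full group C*-algebra exist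
exactly when the graphs are isomorphic. -/
theorem hom_iff_iso {V W : Type} [Fintype V] [Fintype W] {G : SimpleGraph V}
    {H : SimpleGraph W} {A : Type} [CStarAlgebra A] {p : V → W → A}
    (hp : IsIsoGameAlgebra G H p) {Γ : Type} [Group Γ] {C : Type} [CStarAlgebra C]
    {u : Γ →* unitary C} (hu : IsFullGroupCStar u) :
    Nonempty (A →⋆ₐ[ℂ] C) ↔ Nonempty (G ≃g H) := by
  constructor
  · rintro ⟨φ⟩
    obtain ⟨χ⟩ := exists_trivial_character hu
    exact iso_of_complex (isIsoFamily_map hp.fam (χ.comp φ))
  · rintro ⟨e⟩
    obtain ⟨q, hq⟩ := isIsoFamily_of_iso e C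
    exact ⟨(hp.univ C q hq).choose⟩

end Pool.Agent.U695.IG
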