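import Pool.Agent.U695.IG.Univ

/-!
# Isomorphism game algebras, solution groups and full group C*-algebras

The objects of the problem, characterised by their universal properties, and their existence.
-/

set_option autoImplicit false

namespace Pool.Agent.U695.IG

/-- The relation (equal, adjacent, or distinct and non-adjacent) of `g, g'` in `G` is the same as
the relation of `h, h'` in `H`. -/
def SameRel {V W : Type} (G : SimpleGraph V) (H : SimpleGraph W) (g g' : V) (h h' : W) : Prop :=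
  (g = g' ↔ h = h') ∧ (G.Adj g g' ↔ H.Adj h h')

/-- The relations of the isomorphism game algebra of `G` and `H`, for a family `p` of elements of a
unital C*-algebra. -/
structure IsIsoFamily {V W : Type} [Fintype V] [Fintype W] (G : SimpleGraph V) (H : SimpleGraph W)
    {A : Type} [CStarAlgebra A] (p : V → W → A) : Prop where
  mul_self : ∀ g h, p g h * p g h = p g h
  star_self : ∀ g h, star (p g h) = p g h
  row : ∀ g, ∑ h, p g h = 1
  col : ∀ h, ∑ g, p g h = 1
  orth : ∀ g g' h h', ¬ SameRel G H g g' h h' → p g h * p g' h' = 0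

/-- `A`, with the family `p`, is the isomorphism game algebra `𝒜(G, H)`: the universal unital
C*-algebra generated by elements satisfying the relations `IsIsoFamily`. -/
structure IsIsoGameAlgebra {V W : Type} [Fintype V] [Fintype W] (G : SimpleGraph V)
    (H : SimpleGraph W) {A : Type} [CStarAlgebra A] (p : V → W → A) : Prop where
  fam : IsIsoFamily G H p
  univ : ∀ (B : Type) [CStarAlgebra B] (q : V → W → B), IsIsoFamily G H q →
    ∃! φ : A →⋆ₐ[ℂ] B, ∀ g h, φ (p g h) = q g h

/-- The generator `g_i` (`some i`) or `J` (`none`) of the solution group, in the free group. -/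
abbrev gI {n : ℕ} (i : Fin n) : FreeGroup (Option (Fin n)) := FreeGroup.of (some i)

/-- The generator `J` of the solution group, in the free group. -/
abbrev gJ {n : ℕ} : FreeGroup (Option (Fin n)) := FreeGroup.of none

/-- The defining relators of the solution group of the binary linear system `M x = b`. -/
def solutionRels {m n : ℕ} (M : Matrix (Fin m) (Fin n) (ZMod 2)) (b : Fin m → ZMod 2) :
    Set (FreeGroup (Option (Fin n))) :=
  {r | r = gJ ^ 2 ∨ (∃ i, r = gI i ^ 2) ∨
    (∃ i, r = gJ * gI i * gJ⁻¹ * (gI i)⁻¹) ∨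
    (∃ i j k, M k i = 1 ∧ M k j = 1 ∧ r = gI i * gI j * (gI i)⁻¹ * (gI j)⁻¹) ∨
    (∃ k, r = (List.ofFn fun i => gI i ^ (M k i).val).prod * (gJ ^ (b k).val)⁻¹)}

/-- The solution group `Γ(M, b)`. -/
abbrev SolutionGroup {m n : ℕ} (M : Matrix (Fin m) (Fin n) (ZMod 2)) (b : Fin m → ZMod 2) : Type :=
  PresentedGroup (solutionRels M b)

/-- `C`, with the unitary representation `u`, is the full group C*-algebra of `Γ`: every unitary
representation of `Γ` in a unital C*-algebra factors uniquely through `u`. -/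
def IsFullGroupCStar {Γ : Type} [Group Γ] {C : Type} [CStarAlgebra C] (u : Γ →* unitary C) :
    Prop :=
  ∀ (B : Type) [CStarAlgebra B] (v : Γ →* unitary B),
    ∃! φ : C →⋆ₐ[ℂ] B, ∀ x, φ (u x : C) = (v x : B)

/-! ### Existence of the isomorphism game algebra -/

namespace Tm

/-- Sum of a list of terms. -/
def sum {ι : Type} : List (Tm ι) → Tm ι
  | [] => .smul 0 .one
  | t :: l => .add t (sum l)

theorem eval_sum {ι B : Type} [CStarAlgebra B] (q : ι → B) (l : List (Tm ι)) :
    (sum l).eval q = (l.map (Tm.eval q)).sum := by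
  induction l with
  | nil => show (0 : ℂ) • (1 : B) = 0; exact zero_smul _ _
  | cons t l ih => show t.eval q + (sum l).eval q = _; rw [ih]; simp

/-- Difference of terms. -/
def sub {ι : Type} (t t' : Tm ι) : Tm ι := .add t (.smul (-1) t')

theorem eval_sub {ι B : Type} [CStarAlgebra B] (q : ι → B) (t t' : Tm ι) :
    (sub t t').eval q = t.eval q - t'.eval q := by
  show t.eval q + (-1 : ℂ) • t'.eval q = _
  rw [neg_one_smul, sub_eq_add_neg]

end Tm

theorem norm_le_one_of_star_mul {B : Type} [CStarAlgebra B] {x : B} (h : star x * x = 1) :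
    ‖x‖ ≤ 1 := by
  have h1 : ‖(1 : B)‖ ≤ 1 := by
    have := CStarRing.norm_star_mul_self (x := (1 : B))
    rw [star_one, one_mul] at this
    nlinarith [norm_nonneg (1 : B)]
  have h2 := CStarRing.norm_star_mul_self (x := x)
  rw [h] at h2
  nlinarith [norm_nonneg x]

theorem norm_le_one_of_proj {B : Type} [CStarAlgebra B] {x : B} (h : star x = x) (h' : x * x = x) :
    ‖x‖ ≤ 1 := by
  have h2 := CStarRing.norm_star_mul_self (x := x)
  rw [h, h'] at h2
  nlinarith [norm_nonneg x]

theorem exists_isoGameAlgebra {V W : Type} [Fintype V] [Fintype W] (G : SimpleGraph V)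
    (H : SimpleGraph W) : ∃ (A : Type) (_ : CStarAlgebra A) (p : V → W → A),
      IsIsoGameAlgebra G H p := by
  classical
  let R : Set (Tm (V × W)) := {t |
    (∃ g h, t = .sub (.mul (.gen (g, h)) (.gen (g, h))) (.gen (g, h))) ∨
    (∃ g h, t = .sub (.star (.gen (g, h))) (.gen (g, h))) ∨
    (∃ g, t = .sub (.sum ((Finset.univ : Finset W).toList.map fun h => .gen (g, h))) .one) ∨
    (∃ h, t = .sub (.sum ((Finset.univ : Finset V).toList.map fun g => .gen (g, h))) .one) ∨
    (∃ g g' h h', ¬ SameRel G H g g' h h' ∧ t = .mul (.gen (g, h)) (.gen (g', h')))}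
  have key : ∀ (B : Type) [CStarAlgebra B] (q : V × W → B),
      (∀ t ∈ R, t.eval q = 0) ↔ IsIsoFamily G H (fun g h => q (g, h)) := by
    intro B _ q
    constructor
    · intro hR
      refine ⟨fun g h => ?_, fun g h => ?_, fun g => ?_, fun h => ?_, fun g g' h h' hn => ?_⟩
      · have := hR _ (Or.inl ⟨g, h, rfl⟩)
        rw [Tm.eval_sub] at this
        exact sub_eq_zero.1 this
      · have := hR _ (Or.inr (Or.inl ⟨g, h, rfl⟩))
        rw [Tm.eval_sub] at this
        exact sub_eq_zero.1 this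
      · have := hR _ (Or.inr (Or.inr (Or.inl ⟨g, rfl⟩)))
        rw [Tm.eval_sub, Tm.eval_sum, List.map_map] at this
        rw [← Finset.sum_map_toList]
        exact sub_eq_zero.1 this
      · have := hR _ (Or.inr (Or.inr (Or.inr (Or.inl ⟨h, rfl⟩))))
        rw [Tm.eval_sub, Tm.eval_sum, List.map_map] at this
        rw [← Finset.sum_map_toList]
        exact sub_eq_zero.1 this
      · exact hR _ (Or.inr (Or.inr (Or.inr (Or.inr ⟨g, g', h, h', hn, rfl⟩))))
    · intro hq t ht
      rcases ht with ⟨g, h, rfl⟩ | ⟨g, h, rfl⟩ | ⟨g, rfl⟩ | ⟨h, rfl⟩ | ⟨g, g', h, h', hn, rfl⟩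
      · rw [Tm.eval_sub]
        exact sub_eq_zero.2 (hq.mul_self g h)
      · rw [Tm.eval_sub]
        exact sub_eq_zero.2 (hq.star_self g h)
      · rw [Tm.eval_sub, Tm.eval_sum, List.map_map]
        refine sub_eq_zero.2 ?_
        have := hq.row g
        rw [← Finset.sum_map_toList] at this
        exact this
      · rw [Tm.eval_sub, Tm.eval_sum, List.map_map]
        refine sub_eq_zero.2 ?_
        have := hq.col h
        rw [← Finset.sum_map_toList] at this
        exact this
      · exact hq.orth g g' h h' hn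
  obtain ⟨A, iA, p, hp, hu⟩ := exists_universal (V × W) R (fun i => ⟨1, fun B _ q hq => by
    have h1 := (key B q).1 hq
    exact norm_le_one_of_proj (h1.star_self i.1 i.2) (h1.mul_self i.1 i.2)⟩)
  refine ⟨A, iA, fun g h => p (g, h), (key A p).1 hp, fun B _ q hq => ?_⟩
  obtain ⟨φ, hφ, hφ'⟩ := hu B (fun i => q i.1 i.2) ((key B _).2 hq)
  exact ⟨φ, fun g h => hφ (g, h), fun ψ hψ => hφ' ψ fun i => hψ i.1 i.2⟩

/-! ### Existence of the full group C*-algebra -/

theorem exists_fullGroupCStar (Γ : Type) [Group Γ] : ∃ (C : Type) (_ : CStarAlgebra C)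
    (u : Γ →* unitary C), IsFullGroupCStar u := by
  let R : Set (Tm Γ) := {t |
    (t = .sub (.gen 1) .one) ∨
    (∃ x y, t = .sub (.gen (x * y)) (.mul (.gen x) (.gen y))) ∨
    (∃ x, t = .sub (.mul (.star (.gen x)) (.gen x)) .one) ∨
    (∃ x, t = .sub (.mul (.gen x) (.star (.gen x))) .one)}
  have key : ∀ (B : Type) [CStarAlgebra B] (q : Γ → B), (∀ t ∈ R, t.eval q = 0) ↔
      ((q 1 = 1 ∧ ∀ x y, q (x * y) = q x * q y) ∧ (∀ x, star (q x) * q x = 1) ∧
        ∀ x, q x * star (q x) = 1) := by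
    intro B _ q
    constructor
    · intro hR
      refine ⟨⟨?_, fun x y => ?_⟩, fun x => ?_, fun x => ?_⟩
      · have := hR _ (Or.inl rfl)
        rw [Tm.eval_sub] at this
        exact sub_eq_zero.1 this
      · have := hR _ (Or.inr (Or.inl ⟨x, y, rfl⟩))
        rw [Tm.eval_sub] at this
        exact sub_eq_zero.1 this
      · have := hR _ (Or.inr (Or.inr (Or.inl ⟨x, rfl⟩)))
        rw [Tm.eval_sub] at this
        exact sub_eq_zero.1 this
      · have := hR _ (Or.inr (Or.inr (Or.inr ⟨x, rfl⟩)))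
        rw [Tm.eval_sub] at this
        exact sub_eq_zero.1 this
    · rintro ⟨⟨h1, h2⟩, h3, h4⟩ t ht
      rcases ht with rfl | ⟨x, y, rfl⟩ | ⟨x, rfl⟩ | ⟨x, rfl⟩
      · rw [Tm.eval_sub]; exact sub_eq_zero.2 h1
      · rw [Tm.eval_sub]; exact sub_eq_zero.2 (h2 x y)
      · rw [Tm.eval_sub]; exact sub_eq_zero.2 (h3 x)
      · rw [Tm.eval_sub]; exact sub_eq_zero.2 (h4 x)
  obtain ⟨C, iC, p, hp, hu⟩ := exists_universal Γ R (fun i => ⟨1, fun B _ q hq =>
    norm_le_one_of_star_mul (((key B q).1 hq).2.1 i)⟩)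
  obtain ⟨⟨h1, h2⟩, h3, h4⟩ := (key C p).1 hp
  refine ⟨C, iC, ⟨⟨fun x => ⟨p x, Unitary.mem_iff.2 ⟨h3 x, h4 x⟩⟩, Subtype.ext h1⟩,
    fun x y => Subtype.ext (h2 x y)⟩, fun B _ v => ?_⟩
  obtain ⟨φ, hφ, hφ'⟩ := hu B (fun x => (v x : B)) ((key B _).2 ⟨⟨by rw [map_one]; rfl,
    fun x y => by rw [map_mul]; rfl⟩, fun x => (Unitary.mem_iff.1 (v x).2).1,
    fun x => (Unitary.mem_iff.1 (v x).2).2⟩)
  exact ⟨φ, hφ, hφ'⟩

end Pool.Agent.U695.IG
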