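import Pool.Agent.U695.IG.Square

/-!
# Operator solutions of the magic square give isomorphism families
-/

set_option autoImplicit false

namespace Pool.Agent.U695.IG.Square

open scoped ComplexOrder

/-- The sign `(-1)^x`. -/
def sgn (x : ZMod 2) : ℂ := if x = 0 then 1 else -1

theorem sgn_zero : sgn 0 = 1 := if_pos rfl

theorem sgn_one : sgn 1 = -1 := if_neg (by decide)

theorem zmod2 (x : ZMod 2) : x = 0 ∨ x = 1 := by
  revert x; decide

theorem sgn_add (x y : ZMod 2) : sgn (x + y) = sgn x * sgn y := by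
  rcases zmod2 x with rfl | rfl <;> rcases zmod2 y with rfl | rfl
  · simp [sgn_zero]
  · simp [sgn_zero, sgn_one]
  · simp [sgn_zero, sgn_one]
  · have : (1 : ZMod 2) + 1 = 0 := rfl
    rw [this, sgn_zero, sgn_one]; norm_num

/-- An operator solution of the magic square with signs `b`. -/
structure Sol {B : Type} [CStarAlgebra B] (b : Fin 6 → ZMod 2) (A : Fin 3 × Fin 3 → B) : Prop where
  sa : ∀ c, star (A c) = A c
  sq : ∀ c, A c * A c = 1
  mul01 : ∀ k, A (cell k 0) * A (cell k 1) = sgn (b k) • A (cell k 2)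
  mul10 : ∀ k, A (cell k 1) * A (cell k 0) = sgn (b k) • A (cell k 2)

/-- The projection onto the joint eigenspace of the operators of equation `k` given by `d`. -/
noncomputable def proj {B : Type} [CStarAlgebra B] (b : Fin 6 → ZMod 2) (A : Fin 3 × Fin 3 → B)
    (k : Fin 6) (d : ZMod 2 × ZMod 2) : B :=
  (1 / 4 : ℂ) • (1 + sgn (val b k d 0) • A (cell k 0) + sgn (val b k d 1) • A (cell k 1) +
    sgn (val b k d 2) • A (cell k 2))

section alg

variable {B : Type} [CStarAlgebra B] {b : Fin 6 → ZMod 2} {A : Fin 3 × Fin 3 → B}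

theorem sgn_cases (x : ZMod 2) : sgn x = 1 ∨ sgn x = -1 := by
  rcases zmod2 x with rfl | rfl
  · exact Or.inl sgn_zero
  · exact Or.inr sgn_one

theorem tbl {a0 a1 a2 : B} {σ : ℂ} (hσ : σ = 1 ∨ σ = -1) (h0 : a0 * a0 = 1) (h1 : a1 * a1 = 1)
    (h01 : a0 * a1 = σ • a2) (h10 : a1 * a0 = σ • a2) :
    a0 * a2 = σ • a1 ∧ a2 * a0 = σ • a1 ∧ a1 * a2 = σ • a0 ∧ a2 * a1 = σ • a0 ∧ a2 * a2 = 1 := by
  have hσσ : σ * σ = 1 := by rcases hσ with rfl | rfl <;> norm_num
  have e1 : a2 = σ • (a0 * a1) := by rw [h01, smul_smul, hσσ, one_smul]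
  have e2 : a2 = σ • (a1 * a0) := by rw [h10, smul_smul, hσσ, one_smul]
  refine ⟨?_, ?_, ?_, ?_, ?_⟩
  · rw [e1, mul_smul_comm, ← mul_assoc, h0, one_mul]
  · rw [e2, smul_mul_assoc, mul_assoc, h0, mul_one]
  · rw [e2, mul_smul_comm, ← mul_assoc, h1, one_mul]
  · rw [e1, smul_mul_assoc, mul_assoc, h1, mul_one]
  · calc a2 * a2 = (σ • (a0 * a1)) * (σ • (a1 * a0)) := by rw [← e1, ← e2]
      _ = (σ * σ) • (a0 * (a1 * a1) * a0) := by
        rw [smul_mul_assoc, mul_smul_comm, smul_smul]; simp only [mul_assoc]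
      _ = 1 := by rw [h1, mul_one, h0, hσσ, one_smul]

theorem absorb {a0 a1 a2 : B} {σ s0 s1 s2 : ℂ} (hσ : σ = 1 ∨ σ = -1) (hs0 : s0 = 1 ∨ s0 = -1)
    (hs1 : s1 = 1 ∨ s1 = -1) (hs2 : s2 = σ * s0 * s1) (h0 : a0 * a0 = 1) (h1 : a1 * a1 = 1)
    (h01 : a0 * a1 = σ • a2) (h10 : a1 * a0 = σ • a2) :
    let P := (1 / 4 : ℂ) • (1 + s0 • a0 + s1 • a1 + s2 • a2)
    (a0 * P = s0 • P ∧ P * a0 = s0 • P) ∧ (a1 * P = s1 • P ∧ P * a1 = s1 • P) ∧
      (a2 * P = s2 • P ∧ P * a2 = s2 • P) := by
  obtain ⟨h02, h20, h12, h21, h22⟩ := tbl hσ h0 h1 h01 h10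
  subst hs2
  intro P
  refine ⟨⟨?_, ?_⟩, ⟨?_, ?_⟩, ?_, ?_⟩
  all_goals
    simp only [P, mul_smul_comm, smul_mul_assoc, mul_add, add_mul, mul_one, one_mul, h0, h1, h01,
      h10, h02, h20, h12, h21, h22]
    rcases hσ with rfl | rfl <;> rcases hs0 with rfl | rfl <;> rcases hs1 with rfl | rfl <;>
    module

variable (hA : Sol b A)
include hA

omit [CStarAlgebra B] hA in
theorem sgn_val_two (k : Fin 6) (d : ZMod 2 × ZMod 2) :
    sgn (val b k d 2) = sgn (b k) * sgn (val b k d 0) * sgn (val b k d 1) := by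
  show sgn (b k + d.1 + d.2) = _
  rw [sgn_add, sgn_add]
  rfl

theorem proj_absorb (k : Fin 6) (d : ZMod 2 × ZMod 2) (j : Fin 3) :
    A (cell k j) * proj b A k d = sgn (val b k d j) • proj b A k d ∧
      proj b A k d * A (cell k j) = sgn (val b k d j) • proj b A k d := by
  have h := absorb (sgn_cases (b k)) (sgn_cases (val b k d 0)) (sgn_cases (val b k d 1))
    (sgn_val_two k d) (hA.sq _) (hA.sq _) (hA.mul01 k) (hA.mul10 k)
  fin_cases j
  · exact h.1
  · exact h.2.1
  · exact h.2.2

theorem proj_sq (k : Fin 6) (d : ZMod 2 × ZMod 2) :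
    proj b A k d * proj b A k d = proj b A k d := by
  have h0 := (proj_absorb hA k d 0).1
  have h1 := (proj_absorb hA k d 1).1
  have h2 := (proj_absorb hA k d 2).1
  have : ∀ P : B, P = proj b A k d → proj b A k d * P = proj b A k d := by
    intro P hP
    rw [← hP] at h0 h1 h2
    conv_lhs => rw [proj]
    simp only [smul_mul_assoc, add_mul, one_mul, h0, h1, h2]
    rw [← hP]
    rcases sgn_cases (val b k d 0) with e0 | e0 <;> rcases sgn_cases (val b k d 1) with e1 | e1 <;>
    rcases sgn_cases (val b k d 2) with e2 | e2 <;> rw [e0, e1, e2] <;> module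
  exact this _ rfl

theorem proj_star (k : Fin 6) (d : ZMod 2 × ZMod 2) : star (proj b A k d) = proj b A k d := by
  have hs : ∀ x : ZMod 2, star (sgn x) = sgn x := by
    intro x
    rcases sgn_cases x with h | h <;> rw [h] <;> simp
  simp only [proj, star_smul, star_add, star_one, hA.sa, hs]
  congr 1
  simp

theorem proj_mul_zero {k k' : Fin 6} {d d' : ZMod 2 × ZMod 2} {j j' : Fin 3}
    (hc : cell k j = cell k' j') (hv : val b k d j ≠ val b k' d' j') :
    proj b A k d * proj b A k' d' = 0 := by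
  have h1 := (proj_absorb hA k d j).2
  have h2 := (proj_absorb hA k' d' j').1
  have h3 : proj b A k d * A (cell k j) * proj b A k' d' =
      proj b A k d * (A (cell k' j') * proj b A k' d') := by rw [hc, mul_assoc]
  rw [h1, h2, smul_mul_assoc, mul_smul_comm] at h3
  set x := proj b A k d * proj b A k' d'
  have h4 : sgn (val b k d j) ≠ sgn (val b k' d' j') := by
    rcases zmod2 (val b k d j) with e | e <;> rcases zmod2 (val b k' d' j') with e' | e' <;>
      rw [e, e'] at hv ⊢
    · exact absurd rfl hv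
    · rw [sgn_zero, sgn_one]; norm_num
    · rw [sgn_zero, sgn_one]; norm_num
    · exact absurd rfl hv
  have h5 : (sgn (val b k d j) - sgn (val b k' d' j')) • x = 0 := by rw [sub_smul, h3, sub_self]
  exact (smul_eq_zero.1 h5).resolve_left (sub_ne_zero.2 h4)

omit hA in
theorem proj_sum (k : Fin 6) : ∑ d, proj b A k d = 1 := by
  have hu : (Finset.univ : Finset (ZMod 2 × ZMod 2)) = {(0, 0), (0, 1), (1, 0), (1, 1)} := by decide
  rw [hu, Finset.sum_insert (by decide), Finset.sum_insert (by decide),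
    Finset.sum_insert (by decide), Finset.sum_singleton]
  have h11 : (1 : ZMod 2) + 1 = 0 := rfl
  rcases zmod2 (b k) with h | h <;>
  simp only [proj, val, h, add_zero, zero_add, h11, sgn_zero, sgn_one] <;> module

/-- An operator solution gives an isomorphism family. -/
theorem isIsoFamily : IsIsoFamily (gr b) (gr 0)
    (fun x y => if x.1 = y.1 then proj b A x.1 (x.2 + y.2) else 0) where
  mul_self x y := by
    split_ifs
    · exact proj_sq hA _ _
    · exact mul_zero _
  star_self x y := by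
    split_ifs
    · exact proj_star hA _ _
    · exact star_zero _
  row x := by
    obtain ⟨k, e⟩ := x
    rw [Fintype.sum_prod_type, Finset.sum_eq_single k]
    · simp only [if_true]
      rw [← proj_sum (b := b) (A := A) k]
      exact Fintype.sum_equiv (Equiv.addLeft e) _ _ fun f => rfl
    · intro l _ hl
      refine Finset.sum_eq_zero fun f _ => if_neg (Ne.symm hl)
    · intro h; exact absurd (Finset.mem_univ _) h
  col y := by
    obtain ⟨k, e⟩ := y
    rw [Fintype.sum_prod_type, Finset.sum_eq_single k]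
    · simp only [if_true]
      rw [← proj_sum (b := b) (A := A) k]
      exact Fintype.sum_equiv (Equiv.addRight e) _ _ fun f => rfl
    · intro l _ hl
      refine Finset.sum_eq_zero fun f _ => if_neg hl
    · intro h; exact absurd (Finset.mem_univ _) h
  orth x x' y y' hn := by
    obtain ⟨k, e⟩ := x
    obtain ⟨k', e'⟩ := x'
    obtain ⟨l, f⟩ := y
    obtain ⟨l', f'⟩ := y'
    show (if k = l then proj b A k (e + f) else 0) * (if k' = l' then proj b A k' (e' + f') else 0)
      = 0
    by_cases hkl : k = l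
    · by_cases hkl' : k' = l'
      · subst hkl hkl'
        rw [if_pos rfl, if_pos rfl]
        by_contra hne
        apply hn
        have hall : ∀ j j', cell k j = cell k' j' →
            val b k (e + f) j = val b k' (e' + f') j' := by
          intro j j' hc
          by_contra hv
          exact hne (proj_mul_zero hA hc hv)
        have hall' : ∀ j j', cell k j = cell k' j' →
            (val b k e j = val b k' e' j' ↔ val 0 k f j = val 0 k' f' j') := by
          intro j j' hc
          have := hall j j' hc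
          rw [val_add, val_add] at this
          constructor
          · intro h; rw [h] at this; exact add_left_cancel this
          · intro h; rw [h] at this; exact add_right_cancel this
        constructor
        · constructor
          · intro h
            obtain ⟨rfl, rfl⟩ := Prod.mk.inj h
            have : f = f' := eq_of_val (b := 0) (k := k) fun j => (hall' j j rfl).1 rfl
            rw [this]
          · intro h
            obtain ⟨rfl, rfl⟩ := Prod.mk.inj h
            have : e = e' := eq_of_val (b := b) (k := k) fun j => (hall' j j rfl).2 rfl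
            rw [this]
        · constructor
          · rintro ⟨j, j', hc, hv⟩
            exact ⟨j, j', hc, fun h => hv ((hall' j j' hc).2 h)⟩
          · rintro ⟨j, j', hc, hv⟩
            exact ⟨j, j', hc, fun h => hv ((hall' j j' hc).1 h)⟩
      · rw [if_neg hkl', mul_zero]
    · rw [if_neg hkl, zero_mul]

end alg

/-! ### The Pauli solution -/

/-- The nine two-qubit Pauli operators of the magic square (all of them are real matrices). -/
def pz : Fin 3 × Fin 3 → Matrix (Fin 4) (Fin 4) ℤ
  | (0, 0) => !![1,0,0,0; 0,1,0,0; 0,0,-1,0; 0,0,0,-1]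
  | (0, 1) => !![1,0,0,0; 0,-1,0,0; 0,0,1,0; 0,0,0,-1]
  | (0, 2) => !![1,0,0,0; 0,-1,0,0; 0,0,-1,0; 0,0,0,1]
  | (1, 0) => !![0,1,0,0; 1,0,0,0; 0,0,0,1; 0,0,1,0]
  | (1, 1) => !![0,0,1,0; 0,0,0,1; 1,0,0,0; 0,1,0,0]
  | (1, 2) => !![0,0,0,1; 0,0,1,0; 0,1,0,0; 1,0,0,0]
  | (2, 0) => !![0,1,0,0; 1,0,0,0; 0,0,0,-1; 0,0,-1,0]
  | (2, 1) => !![0,0,1,0; 0,0,0,-1; 1,0,0,0; 0,-1,0,0]
  | (2, 2) => !![0,0,0,-1; 0,0,1,0; 0,1,0,0; -1,0,0,0]

/-- The sign in `ℤ`. -/
def sz (x : ZMod 2) : ℤ := if x = 0 then 1 else -1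

theorem pz_sq : ∀ c, pz c * pz c = 1 := by decide +kernel

theorem pz_transpose : ∀ c, (pz c).transpose = pz c := by decide +kernel

theorem pz_mul01 : ∀ k, pz (cell k 0) * pz (cell k 1) = sz (beta k) • pz (cell k 2) := by
  decide +kernel

theorem pz_mul10 : ∀ k, pz (cell k 1) * pz (cell k 0) = sz (beta k) • pz (cell k 2) := by
  decide +kernel

/-- Integer matrices as elements of the C*-algebra of complex 4×4 matrices. -/
noncomputable def F : Matrix (Fin 4) (Fin 4) ℤ →+* CStarMatrix (Fin 4) (Fin 4) ℂ :=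
  (CStarMatrix.ofMatrixRingEquiv (n := Fin 4) (A := ℂ) : Matrix (Fin 4) (Fin 4) ℂ →+* _).comp
    (Int.castRingHom ℂ).mapMatrix

theorem star_F (M : Matrix (Fin 4) (Fin 4) ℤ) : star (F M) = F M.transpose := by
  ext i j
  show star ((M j i : ℤ) : ℂ) = ((M j i : ℤ) : ℂ)
  simp

theorem F_smul (x : ZMod 2) (M : Matrix (Fin 4) (Fin 4) ℤ) : F (sz x • M) = sgn x • F M := by
  rcases zmod2 x with rfl | rfl
  · have : sz 0 = 1 := rfl
    rw [this, sgn_zero, one_smul, one_smul]
  · have : sz 1 = -1 := rfl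
    rw [this, sgn_one, neg_one_smul, neg_one_smul, map_neg]

theorem pauli_sol : Sol beta (fun c => F (pz c)) where
  sa c := by rw [star_F, pz_transpose]
  sq c := by rw [← map_mul, pz_sq, map_one]
  mul01 k := by rw [← map_mul, pz_mul01, F_smul]
  mul10 k := by rw [← map_mul, pz_mul10, F_smul]

/-- The isomorphism game algebra of the two magic square graphs is nonzero. -/
theorem nontrivial_of_isIsoGameAlgebra {A : Type} [CStarAlgebra A] {p : Vert → Vert → A}
    (hp : IsIsoGameAlgebra (gr beta) (gr 0) p) : Nontrivial A := by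
  obtain ⟨φ, _, _⟩ := hp.univ (CStarMatrix (Fin 4) (Fin 4) ℂ) _ (isIsoFamily pauli_sol)
  by_contra h
  rw [not_nontrivial_iff_subsingleton] at h
  have h1 : φ 1 = φ 0 := congrArg φ (Subsingleton.elim _ _)
  rw [map_one, map_zero] at h1
  exact one_ne_zero h1

end Pool.Agent.U695.IG.Square
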