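import Pool.Agent.U695.IG.Chars

/-!
# The Mermin–Peres magic square gives a pair of graphs with nonzero isomorphism game algebra
which are not isomorphic
-/

set_option autoImplicit false

namespace Pool.Agent.U695.IG.Square

/-- Vertices: an equation `k` (rows `0,1,2`, columns `3,4,5` of the square) with the values of the
first two of its three variables. -/
abbrev Vert := Fin 6 × (ZMod 2 × ZMod 2)

/-- The `j`-th cell of equation `k`. -/
def cell (k : Fin 6) (j : Fin 3) : Fin 3 × Fin 3 :=
  match k with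
  | 0 => (0, j)
  | 1 => (1, j)
  | 2 => (2, j)
  | 3 => (j, 0)
  | 4 => (j, 1)
  | 5 => (j, 2)

/-- The right hand side of the magic square system. -/
def beta (k : Fin 6) : ZMod 2 := if k = 5 then 1 else 0

/-- Value of the `j`-th variable of equation `k` (with right-hand side `b k`) in the assignment
`e`. -/
def val (b : Fin 6 → ZMod 2) (k : Fin 6) (e : ZMod 2 × ZMod 2) (j : Fin 3) : ZMod 2 :=
  match j with
  | 0 => e.1
  | 1 => e.2
  | 2 => b k + e.1 + e.2

theorem val_add (b : Fin 6 → ZMod 2) (k : Fin 6) (e f : ZMod 2 × ZMod 2) (j : Fin 3) :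
    val b k (e + f) j = val b k e j + val 0 k f j := by
  fin_cases j
  · rfl
  · rfl
  · show b k + (e.1 + f.1) + (e.2 + f.2) = (b k + e.1 + e.2) + (0 + f.1 + f.2)
    ring

/-- The assignments `x` and `y` are inconsistent: they give different values to a common cell. -/
def Incons (b : Fin 6 → ZMod 2) (x y : Vert) : Prop :=
  ∃ j j', cell x.1 j = cell y.1 j' ∧ val b x.1 x.2 j ≠ val b y.1 y.2 j'

instance (b : Fin 6 → ZMod 2) (x y : Vert) : Decidable (Incons b x y) := by
  unfold Incons; infer_instance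

theorem cell_inj : ∀ (k : Fin 6) (j j' : Fin 3), cell k j = cell k j' → j = j' := by decide

/-- The graph of the system with right-hand side `b`. -/
def gr (b : Fin 6 → ZMod 2) : SimpleGraph Vert where
  Adj x y := Incons b x y
  symm := ⟨fun x y h => by
    obtain ⟨j, j', h1, h2⟩ := h
    exact ⟨j', j, h1.symm, h2.symm⟩⟩
  loopless := ⟨fun x h => by
    obtain ⟨j, j', h1, h2⟩ := h
    exact h2 (by rw [cell_inj _ _ _ h1])⟩

/-! ### Non-isomorphism -/

theorem eq_of_val {b : Fin 6 → ZMod 2} {k : Fin 6} {e f : ZMod 2 × ZMod 2}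
    (h : ∀ j, val b k e j = val b k f j) : e = f :=
  Prod.ext (h 0) (h 1)

theorem adj_of_ne {b : Fin 6 → ZMod 2} {x y : Vert} (h1 : x.1 = y.1) (h2 : x ≠ y) :
    (gr b).Adj x y := by
  obtain ⟨k, e⟩ := x
  obtain ⟨l, f⟩ := y
  obtain rfl : k = l := h1
  by_contra hn
  apply h2
  have : e = f := eq_of_val (b := b) (k := k) fun j => by
    by_contra h
    exact hn ⟨j, j, rfl, h⟩
  rw [this]

theorem not_iso : IsEmpty (gr beta ≃g gr 0) := by
  refine ⟨fun φ => ?_⟩
  -- the independent set of the graph of the homogeneous system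
  let s : Fin 6 → Vert := fun k => φ.symm (k, 0)
  have hind : ∀ k l, ¬ (gr beta).Adj (s k) (s l) := by
    intro k l h
    have h2 : (gr 0).Adj (k, 0) (l, 0) := φ.symm.map_adj_iff.1 h
    obtain ⟨j, j', _, h3⟩ := h2
    apply h3
    have hz : ∀ (k : Fin 6) (j : Fin 3), val 0 k 0 j = 0 := by decide
    show val 0 k 0 j = val 0 l 0 j'
    rw [hz, hz]
  have hinj : Function.Injective (fun k => (s k).1) := by
    intro k l h
    by_contra hkl
    have hne : s k ≠ s l := fun h => hkl (by
      have := φ.symm.injective h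
      exact congrArg Prod.fst this)
    exact hind k l (adj_of_ne h hne)
  have hsurj := Finite.injective_iff_surjective.1 hinj
  choose t ht using hsurj
  -- the assignment of equation `k`
  let e : Fin 6 → ZMod 2 × ZMod 2 := fun k => (s (t k)).2
  have hst : ∀ k, s (t k) = (k, e k) := fun k => Prod.ext (ht k) rfl
  have hcons : ∀ k l j j', cell k j = cell l j' → val beta k (e k) j = val beta l (e l) j' := by
    intro k l j j' h
    by_contra hn
    apply hind (t k) (t l)
    rw [hst, hst]
    exact ⟨j, j', h, hn⟩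
  have h00 := hcons 0 3 0 0 rfl
  have h01 := hcons 0 4 1 0 rfl
  have h02 := hcons 0 5 2 0 rfl
  have h10 := hcons 1 3 0 1 rfl
  have h11 := hcons 1 4 1 1 rfl
  have h12 := hcons 1 5 2 1 rfl
  have h20 := hcons 2 3 0 2 rfl
  have h21 := hcons 2 4 1 2 rfl
  have h22 := hcons 2 5 2 2 rfl
  simp only [val] at h00 h01 h02 h10 h11 h12 h20 h21 h22
  have b0 : beta 0 = 0 := rfl
  have b1 : beta 1 = 0 := rfl
  have b2 : beta 2 = 0 := rfl
  have b3 : beta 3 = 0 := rfl
  have b4 : beta 4 = 0 := rfl
  have b5 : beta 5 = 1 := rfl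
  rw [b0] at h02
  rw [b1] at h12
  rw [b2, b5] at h22
  rw [b3] at h20
  rw [b4] at h21
  rw [← h01, ← h11] at h21
  rw [← h00, ← h10] at h20
  rw [← h02, ← h12, h20, h21] at h22
  have : (1 : ZMod 2) = 0 := by linear_combination (-1) * h22
  exact one_ne_zero this

end Pool.Agent.U695.IG.Square
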