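import Mathlib

/-!
# Universal unital C*-algebras given by generators and relations

For a set `R` of noncommutative *-polynomials (formal terms) in the generators `ι` which bounds the
norms of the generators, there is a unital C*-algebra which is universal for families satisfying
the relations `t = 0`, `t ∈ R`.
-/

set_option autoImplicit false

namespace Pool.Agent.U695.IG

open scoped ENNReal

/-- Formal *-polynomials in the generators `ι`. -/
inductive Tm (ι : Type) : Type
  | gen (i : ι) : Tm ι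
  | one : Tm ι
  | smul (c : ℂ) (t : Tm ι) : Tm ι
  | add (t t' : Tm ι) : Tm ι
  | mul (t t' : Tm ι) : Tm ι
  | star (t : Tm ι) : Tm ι

/-- The value of a formal *-polynomial at a family of elements of a C*-algebra. -/
noncomputable def Tm.eval {ι : Type} {B : Type} [CStarAlgebra B] (q : ι → B) : Tm ι → B
  | .gen i => q i
  | .one => 1
  | .smul c t => c • t.eval q
  | .add t t' => t.eval q + t'.eval q
  | .mul t t' => t.eval q * t'.eval q
  | .star t => Star.star (t.eval q)

instance {ι : Type} : Nonempty (Tm ι) := ⟨.one⟩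

theorem Tm.eval_map {ι : Type} {B C : Type} [CStarAlgebra B] [CStarAlgebra C] (φ : B →⋆ₐ[ℂ] C)
    (q : ι → B) (t : Tm ι) : φ (t.eval q) = t.eval (fun i => φ (q i)) := by
  induction t with
  | gen i => rfl
  | one => exact map_one φ
  | smul c t ih => simp only [Tm.eval, map_smul, ih]
  | add t t' ih ih' => simp only [Tm.eval, map_add, ih, ih']
  | mul t t' ih ih' => simp only [Tm.eval, map_mul, ih, ih']
  | star t ih => simp only [Tm.eval, map_star, ih]

theorem exists_extend {S A B : Type} [Ring S] [StarRing S] [Algebra ℂ S] [CStarAlgebra A]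
    [CStarAlgebra B] (e : S →⋆ₐ[ℂ] A) (f : S →⋆ₐ[ℂ] B) (he : DenseRange e)
    (hf : ∀ x, ‖f x‖ ≤ ‖e x‖) : ∃ φ : A →⋆ₐ[ℂ] B, ∀ x, φ (e x) = f x := by
  let f' : S →ₗ[ℂ] B := f.toAlgHom.toLinearMap
  let e' : S →ₗ[ℂ] A := e.toAlgHom.toLinearMap
  have he' : DenseRange e' := he
  have hb : ∃ C, ∀ x, ‖f' x‖ ≤ C * ‖e' x‖ := ⟨1, fun x => by rw [one_mul]; exact hf x⟩
  let g : A →L[ℂ] B := f'.extendOfNorm e'
  have hg : ∀ x, g (e x) = f x := fun x => LinearMap.extendOfNorm_eq he' hb x
  have hc : Continuous g := g.continuous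
  have h1 : g 1 = 1 := by rw [← map_one e, hg, map_one]
  have hm : ∀ a b, g (a * b) = g a * g b := by
    intro a b
    refine he.induction_on₂ (p := fun a b => g (a * b) = g a * g b) ?_ ?_ a b
    · exact isClosed_eq (hc.comp continuous_mul)
        ((hc.comp continuous_fst).mul (hc.comp continuous_snd))
    · intro x y
      rw [← map_mul, hg, hg, hg, map_mul]
  have hs : ∀ a, g (star a) = star (g a) := by
    intro a
    refine he.induction_on (p := fun a => g (star a) = star (g a)) a ?_ ?_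
    · exact isClosed_eq (hc.comp continuous_star) (continuous_star.comp hc)
    · intro x
      rw [← map_star, hg, hg, map_star]
  refine ⟨{ toFun := g, map_one' := h1, map_mul' := hm, map_zero' := map_zero g,
            map_add' := map_add g, commutes' := fun r => ?_, map_star' := hs }, hg⟩
  rw [Algebra.algebraMap_eq_smul_one, Algebra.algebraMap_eq_smul_one]
  show g (r • 1) = r • 1
  rw [map_smul, h1]

noncomputable instance instLp {I : Type} {A : I → Type} [∀ i, CStarAlgebra (A i)]
    [∀ i, Nontrivial (A i)] : CStarAlgebra (lp A ∞) where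

theorem exists_universal (ι : Type) (R : Set (Tm ι))
    (hb : ∀ i, ∃ C : ℝ, ∀ (B : Type) [CStarAlgebra B] (q : ι → B),
      (∀ t ∈ R, t.eval q = 0) → ‖q i‖ ≤ C) :
    ∃ (A : Type) (_ : CStarAlgebra A) (p : ι → A), (∀ t ∈ R, t.eval p = 0) ∧
      ∀ (B : Type) [CStarAlgebra B] (q : ι → B), (∀ t ∈ R, t.eval q = 0) →
        ∃! φ : A →⋆ₐ[ℂ] B, ∀ i, φ (p i) = q i := by
  classical
  let I : Type := {s : Tm ι → ℝ // ∃ (B : Type) (_ : CStarAlgebra B) (_ : Nontrivial B)
    (q : ι → B), (∀ t ∈ R, t.eval q = 0) ∧ ∀ t, s t = ‖t.eval q‖}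
  let Bs : I → Type := fun s => s.2.choose
  let iC : ∀ s, CStarAlgebra (Bs s) := fun s => s.2.choose_spec.choose
  have iN : ∀ s, Nontrivial (Bs s) := fun s => s.2.choose_spec.choose_spec.choose
  let qs : ∀ s : I, ι → Bs s := fun s => s.2.choose_spec.choose_spec.choose_spec.choose
  have hqs : ∀ s : I, ∀ t ∈ R, t.eval (qs s) = 0 := fun s =>
    s.2.choose_spec.choose_spec.choose_spec.choose_spec.1
  have hqs' : ∀ s : I, ∀ t, s.1 t = ‖t.eval (qs s)‖ := fun s =>
    s.2.choose_spec.choose_spec.choose_spec.choose_spec.2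
  choose bd hbd using hb
  let qh : ι → lp Bs ∞ := fun i => ⟨fun s => qs s i, memℓp_infty ⟨bd i, by
    rintro _ ⟨s, rfl⟩
    exact hbd i (Bs s) (qs s) (hqs s)⟩⟩
  have hev : ∀ (t : Tm ι) (s : I), (t.eval qh : lp Bs ∞) s = t.eval (qs s) := by
    intro t s
    induction t with
    | gen i => rfl
    | one =>
      show ((1 : lp Bs ∞) : ∀ s, Bs s) s = 1
      rw [lp.infty_coeFn_one]; rfl
    | smul c t ih =>
      show ((c • t.eval qh : lp Bs ∞) : ∀ s, Bs s) s = c • t.eval (qs s)
      rw [lp.coeFn_smul, Pi.smul_apply, ih]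
    | add t t' ih ih' =>
      show ((t.eval qh + t'.eval qh : lp Bs ∞) : ∀ s, Bs s) s = t.eval (qs s) + t'.eval (qs s)
      rw [lp.coeFn_add, Pi.add_apply, ih, ih']
    | mul t t' ih ih' =>
      show ((t.eval qh * t'.eval qh : lp Bs ∞) : ∀ s, Bs s) s = t.eval (qs s) * t'.eval (qs s)
      rw [lp.infty_coeFn_mul, Pi.mul_apply, ih, ih']
    | star t ih =>
      show ((star (t.eval qh) : lp Bs ∞) : ∀ s, Bs s) s = star (t.eval (qs s))
      rw [lp.coeFn_star, Pi.star_apply, ih]
  let S : StarSubalgebra ℂ (lp Bs ∞) := StarAlgebra.adjoin ℂ (Set.range qh)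
  have hS : ∀ x ∈ S, ∃ t : Tm ι, t.eval qh = x := by
    intro x hx
    induction hx using StarAlgebra.adjoin_induction with
    | mem x h =>
      obtain ⟨i, rfl⟩ := h
      exact ⟨.gen i, rfl⟩
    | algebraMap r => exact ⟨.smul r .one, by simp [Tm.eval, Algebra.algebraMap_eq_smul_one]⟩
    | add x y _ _ hx hy =>
      obtain ⟨t, rfl⟩ := hx
      obtain ⟨t', rfl⟩ := hy
      exact ⟨.add t t', rfl⟩
    | mul x y _ _ hx hy =>
      obtain ⟨t, rfl⟩ := hx
      obtain ⟨t', rfl⟩ := hy
      exact ⟨.mul t t', rfl⟩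
    | star x _ hx =>
      obtain ⟨t, rfl⟩ := hx
      exact ⟨.star t, rfl⟩
  have hcl : IsClosed (S.topologicalClosure : Set (lp Bs ∞)) := S.isClosed_topologicalClosure
  let A : Type := S.topologicalClosure
  let iA : CStarAlgebra A := StarSubalgebra.cstarAlgebra S.topologicalClosure
  let p : ι → A := fun i => ⟨qh i, S.le_topologicalClosure
    (StarAlgebra.subset_adjoin ℂ _ ⟨i, rfl⟩)⟩
  have hp : ∀ t : Tm ι, ((t.eval p : A) : lp Bs ∞) = t.eval qh := fun t =>
    Tm.eval_map (S.topologicalClosure.subtype) p t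
  refine ⟨A, iA, p, fun t ht => ?_, fun B _ q hq => ?_⟩
  · apply Subtype.ext
    rw [hp]
    ext s
    rw [hev, hqs s t ht]
    rfl
  rcases subsingleton_or_nontrivial B with hB | hB
  · refine ⟨{ toFun := fun _ => 0, map_one' := Subsingleton.elim _ _,
              map_mul' := fun _ _ => Subsingleton.elim _ _, map_zero' := Subsingleton.elim _ _,
              map_add' := fun _ _ => Subsingleton.elim _ _,
              commutes' := fun _ => Subsingleton.elim _ _,
              map_star' := fun _ => Subsingleton.elim _ _ }, fun _ => Subsingleton.elim _ _, ?_⟩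
    intro ψ _
    exact StarAlgHom.ext fun _ => Subsingleton.elim _ _
  let s0 : I := ⟨fun t => ‖t.eval q‖, B, inferInstance, hB, q, hq, fun _ => rfl⟩
  have hle : ∀ t : Tm ι, ‖t.eval q‖ ≤ ‖t.eval qh‖ := by
    intro t
    have h1 : ‖t.eval q‖ = ‖t.eval (qs s0)‖ := hqs' s0 t
    rw [h1, ← hev t s0]
    exact lp.norm_apply_le_norm (by simp) _ _
  have hwd : ∀ t t' : Tm ι, t.eval qh = t'.eval qh → t.eval q = t'.eval q := by
    intro t t' h
    have h2 := hle (.add t (.smul (-1) t'))
    simp only [Tm.eval, h, neg_smul, one_smul, add_neg_cancel, norm_zero] at h2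
    have h3 := norm_le_zero_iff.1 h2
    exact add_neg_eq_zero.1 h3
  choose! tm htm using hS
  have hφ0 : ∀ (t : Tm ι) (x : S), t.eval qh = x → (tm x).eval q = t.eval q := by
    intro t x h
    exact hwd _ _ ((htm x x.2).trans h.symm)
  let f : S →⋆ₐ[ℂ] B :=
    { toFun := fun x => (tm x).eval q
      map_one' := hφ0 .one _ rfl
      map_mul' := fun x y => hφ0 (.mul (tm x) (tm y)) _ (by
        show (tm x).eval qh * (tm y).eval qh = _
        rw [htm _ x.2, htm _ y.2]; rfl)
      map_zero' := by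
        rw [hφ0 (.smul 0 .one) 0 (by show (0:ℂ) • _ = _; rw [zero_smul]; rfl)]
        show (0:ℂ) • _ = _; rw [zero_smul]
      map_add' := fun x y => hφ0 (.add (tm x) (tm y)) _ (by
        show (tm x).eval qh + (tm y).eval qh = _
        rw [htm _ x.2, htm _ y.2]; rfl)
      commutes' := fun r => by
        rw [hφ0 (.smul r .one) (algebraMap ℂ S r) (by
          show r • (1 : lp Bs ∞) = _; rw [← Algebra.algebraMap_eq_smul_one]; rfl)]
        show r • (1 : B) = _; rw [Algebra.algebraMap_eq_smul_one]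
      map_star' := fun x => hφ0 (.star (tm x)) _ (by
        show star ((tm x).eval qh) = _
        rw [htm _ x.2]; rfl) }
  let e : S →⋆ₐ[ℂ] A := StarSubalgebra.inclusion S.le_topologicalClosure
  have he : DenseRange e := by
    show DenseRange (Set.inclusion S.le_topologicalClosure)
    exact (denseRange_inclusion_iff _).2 subset_rfl
  have hfe : ∀ x, ‖f x‖ ≤ ‖e x‖ := by
    intro x
    have := hle (tm x)
    rw [htm x x.2] at this
    exact this
  obtain ⟨φ, hφ⟩ := exists_extend e f he hfe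
  refine ⟨φ, fun i => ?_, ?_⟩
  · have h1 := hφ ⟨qh i, StarAlgebra.subset_adjoin ℂ _ ⟨i, rfl⟩⟩
    have h2 : f ⟨qh i, StarAlgebra.subset_adjoin ℂ _ ⟨i, rfl⟩⟩ = q i := hφ0 (.gen i) _ rfl
    rw [h2] at h1
    exact h1
  · intro ψ hψ
    have hdiff : ∀ x : S, ψ (e x) = φ (e x) := by
      intro x
      have h1 : e x = (tm x).eval p := Subtype.ext (by rw [hp, htm x x.2]; rfl)
      rw [h1, Tm.eval_map, Tm.eval_map]
      have h3 : (fun i => ψ (p i)) = fun i => φ (p i) := by
        funext i
        rw [hψ i]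
        have h4 := hφ ⟨qh i, StarAlgebra.subset_adjoin ℂ _ ⟨i, rfl⟩⟩
        have h2 : f ⟨qh i, StarAlgebra.subset_adjoin ℂ _ ⟨i, rfl⟩⟩ = q i := hφ0 (.gen i) _ rfl
        rw [h2] at h4
        exact h4.symm
      rw [h3]
    have hψc : Continuous ψ :=
      (NonUnitalStarAlgHom.instContinuousLinearMapClassComplex (F := A →⋆ₐ[ℂ] B)).map_continuous ψ
    have hφc : Continuous φ :=
      (NonUnitalStarAlgHom.instContinuousLinearMapClassComplex (F := A →⋆ₐ[ℂ] B)).map_continuous φ
    exact DFunLike.ext' (he.equalizer hψc hφc (funext hdiff))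

end Pool.Agent.U695.IG
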